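import Pool.Agent.Q67.TR.Dim

/-!
# Every convex cycle trap of the baker's map is a dimension trap
-/

namespace Pool.Agent.Results.MP_922b34_an.ConvexCycleTraps

open Set Filter Topology Pool.Agent.Q67.TR

/-- the unit square -/
def X : Set (ℝ × ℝ) := Icc 0 1 ×ˢ Icc 0 1

/-- the baker's map -/
noncomputable def B (p : ℝ × ℝ) : ℝ × ℝ :=
  if p.1 < 1/2 then (2 * p.1, p.2 / 2) else (2 * p.1 - 1, (p.2 + 1) / 2)

/-- `x = ∑_{n ≥ 1} u_n 2^{-n}`, for the sequence seen from time `k` -/
noncomputable def cx (u : ℤ → Bool) (k : ℤ) : ℝ :=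
  ∑' n : ℕ, (if u (k + 1 + n) then (1:ℝ) else 0) * (1/2)^(n+1)

/-- `y = ∑_{n ≥ 0} u_{-n} 2^{-n-1}`, for the sequence seen from time `k` -/
noncomputable def cy (u : ℤ → Bool) (k : ℤ) : ℝ :=
  ∑' n : ℕ, (if u (k - n) then (1:ℝ) else 0) * (1/2)^(n+1)

/-- the survivor set through the coding: all points that have a code whose whole orbit
avoids `H` -/
def codedSurvivors (H : Set (ℝ × ℝ)) : Set (ℝ × ℝ) :=
  {P | ∃ u : ℤ → Bool, (cx u 0, cy u 0) = P ∧ ∀ k : ℤ, (cx u k, cy u k) ∉ H}

/-- the survivor set through the map: all points of the square that lie on a two-sided orbit of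
`B` avoiding `H` -/
def orbitSurvivors (H : Set (ℝ × ℝ)) : Set (ℝ × ℝ) :=
  {P | ∃ o : ℤ → ℝ × ℝ, o 0 = P ∧ (∀ k, o k ∈ X) ∧ (∀ k, B (o k) = o (k+1)) ∧ ∀ k, o k ∉ H}

lemma cx_eq (u : ℤ → Bool) (k : ℤ) : cx u k = px u k := rfl
lemma cy_eq (u : ℤ → Bool) (k : ℤ) : cy u k = py u k := rfl

lemma B_code {v : ℤ → Bool} {i j : ℤ} (hj : i + 1 < j) (hvj : v j = false) :
    B (px v i, py v i) = (px v (i+1), py v (i+1)) := by
  have h1 := px_succ v i
  have h2 := py_succ v i
  have hlt : px v (i+1) < 1 := by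
    apply val_lt_one (k := (j - (i + 2)).toNat)
    rw [show i + 1 + 1 + ((j - (i + 2)).toNat : ℤ) = j by omega]; exact hvj
  have hnn : 0 ≤ px v (i+1) := val_nonneg _
  unfold B
  rcases hb : v (i+1) with _ | _
  · rw [hb] at h1 h2
    simp only [Bool.false_eq_true, if_false] at h1 h2
    have : px v i < 1/2 := by linarith
    simp only [this, if_true]
    ext <;> simp only <;> linarith
  · rw [hb] at h1 h2
    simp only [if_true] at h1 h2
    have : ¬ (px v i < 1/2) := by linarith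
    simp only [this, if_false]
    ext <;> simp only <;> linarith

lemma trap_of_geom {H : Set (ℝ × ℝ)}
    (htrap : ∀ P ∈ X, ∀ q : ℕ, 1 ≤ q → B^[q] P = P → P ≠ (0, 0) → P ≠ (1, 1) →
      ∃ n : ℕ, B^[n] P ∈ closure H) : Trap H := by
  intro v p hp hper hnc
  have hperk : ∀ (k : ℕ) (i : ℤ), v (i + p * k) = v i := by
    intro k
    induction k with
    | zero => intro i; simp
    | succ k ih =>
      intro i
      rw [show i + p * ((k + 1 : ℕ) : ℤ) = (i + p * k) + p by push_cast; ring, hper, ih]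
  have hex : ∀ b : Bool, ∃ a, v a = b := by
    push Not at hnc
    obtain ⟨i, j, hij⟩ := hnc
    intro b
    rcases hi : v i <;> rcases hj : v j <;> rcases b <;> simp_all <;>
      first | exact ⟨i, hi⟩ | exact ⟨j, hj⟩
  have hfar : ∀ (b : Bool) (i : ℤ), ∃ j, i < j ∧ v j = b := by
    intro b i
    obtain ⟨a, ha⟩ := hex b
    refine ⟨a + p * ((i - a).toNat + 1 : ℕ), ?_, ?_⟩
    · have : (i - a).toNat + 1 ≤ p * ((i - a).toNat + 1 : ℕ) := by
        push_cast
        nlinarith
      omega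
    · rw [hperk]; exact ha
  have horb : ∀ n : ℕ, B^[n] (px v 0, py v 0) = (px v n, py v n) := by
    intro n
    induction n with
    | zero => simp
    | succ n ih =>
      rw [Function.iterate_succ_apply', ih]
      obtain ⟨j, hj, hvj⟩ := hfar false ((n:ℤ) + 1)
      rw [B_code hj hvj]
      push_cast; rfl
  have hper0 : B^[p.toNat] (px v 0, py v 0) = (px v 0, py v 0) := by
    rw [horb]
    have e : ((p.toNat : ℕ) : ℤ) = p := by omega
    rw [e]
    ext
    · show px v p = px v 0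
      unfold px; congr 1; ext k
      rw [show p + 1 + (k:ℤ) = (0 + 1 + k) + p by ring, hper]
    · show py v p = py v 0
      unfold py; congr 1; ext k
      rw [show p - (k:ℤ) = (0 - k) + p by ring, hper]
  have hX : (px v 0, py v 0) ∈ X :=
    ⟨⟨val_nonneg _, val_le_one _⟩, ⟨val_nonneg _, val_le_one _⟩⟩
  have h0 : 0 < px v 0 := by
    obtain ⟨j, hj, hvj⟩ := hfar true 0
    apply val_pos (k := (j - 1).toNat)
    rw [show (0:ℤ) + 1 + ((j - 1).toNat : ℤ) = j by omega]; exact hvj
  have h1 : px v 0 < 1 := by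
    obtain ⟨j, hj, hvj⟩ := hfar false 0
    apply val_lt_one (k := (j - 1).toNat)
    rw [show (0:ℤ) + 1 + ((j - 1).toNat : ℤ) = j by omega]; exact hvj
  obtain ⟨n, hn⟩ := htrap _ hX p.toNat (by omega) hper0
    (fun h => h0.ne' (congrArg Prod.fst h)) (fun h => h1.ne (congrArg Prod.fst h))
  rw [horb] at hn
  exact ⟨n, hn⟩

lemma orbit_coded {o : ℤ → ℝ × ℝ} (hX : ∀ k, o k ∈ X) (hB : ∀ k, B (o k) = o (k+1)) :
    ∃ u : ℤ → Bool, ∀ k, (px u k, py u k) = o k := by
  classical
  let u : ℤ → Bool := fun n => decide (¬ (o (n-1)).1 < 1/2)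
  have hu : ∀ k, (2 * (o k).1 = (if u (k+1) then (1:ℝ) else 0) + (o (k+1)).1) ∧
      (2 * (o (k+1)).2 = (if u (k+1) then (1:ℝ) else 0) + (o k).2) := by
    intro k
    have hk := hB k
    unfold B at hk
    by_cases h : (o k).1 < 1/2
    · rw [if_pos h] at hk
      have hu : u (k+1) = false := by
        simp only [u, add_sub_cancel_right, h, not_true_eq_false, decide_false]
      rw [hu, ← hk]
      simp only [Bool.false_eq_true, if_false]
      constructor <;> ring
    · rw [if_neg h] at hk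
      have hu : u (k+1) = true := by
        simp only [u, add_sub_cancel_right, h, not_false_eq_true, decide_true]
      rw [hu, ← hk]
      simp only [if_true]
      constructor <;> ring
  have hbd : ∀ k, |px u k - (o k).1| ≤ 1 ∧ |py u k - (o k).2| ≤ 1 := by
    intro k
    have h1 := hX k
    simp only [X, Set.mem_prod, Set.mem_Icc] at h1
    have h2 : 0 ≤ px u k := val_nonneg _
    have h3 : px u k ≤ 1 := val_le_one _
    have h4 : 0 ≤ py u k := val_nonneg _
    have h5 : py u k ≤ 1 := val_le_one _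
    rw [abs_le, abs_le]
    refine ⟨⟨?_, ?_⟩, ⟨?_, ?_⟩⟩ <;> linarith [h1.1.1, h1.1.2, h1.2.1, h1.2.2]
  have hx : ∀ (n : ℕ) k, |px u k - (o k).1| ≤ (1/2:ℝ)^n := by
    intro n
    induction n with
    | zero => intro k; simpa using (hbd k).1
    | succ n ih =>
      intro k
      have h1 := px_succ u k
      have h2 := (hu k).1
      have h3 := ih (k+1)
      have h4 : px u k - (o k).1 = (1/2) * (px u (k+1) - (o (k+1)).1) := by linarith
      rw [h4, abs_mul, abs_of_pos (by norm_num : (0:ℝ) < 1/2), pow_succ]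
      linarith
  have hy : ∀ (n : ℕ) k, |py u k - (o k).2| ≤ (1/2:ℝ)^n := by
    intro n
    induction n with
    | zero => intro k; simpa using (hbd k).2
    | succ n ih =>
      intro k
      have h1 := py_succ u (k-1)
      have h2 := (hu (k-1)).2
      have h3 := ih (k-1)
      rw [sub_add_cancel] at h1 h2
      have h4 : py u k - (o k).2 = (1/2) * (py u (k-1) - (o (k-1)).2) := by linarith
      rw [h4, abs_mul, abs_of_pos (by norm_num : (0:ℝ) < 1/2), pow_succ]
      linarith
  have hlim : Tendsto (fun n : ℕ => (1/2:ℝ)^n) atTop (𝓝 0) :=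
    tendsto_pow_atTop_nhds_zero_of_lt_one (by norm_num) (by norm_num)
  refine ⟨u, fun k => ?_⟩
  ext
  · have h1 : |px u k - (o k).1| ≤ 0 := ge_of_tendsto' hlim (fun n => hx n k)
    exact sub_eq_zero.1 (abs_nonpos_iff.1 h1)
  · have h1 : |py u k - (o k).2| ≤ 0 := ge_of_tendsto' hlim (fun n => hy n k)
    exact sub_eq_zero.1 (abs_nonpos_iff.1 h1)

/-- **Every convex cycle trap of the baker's map is a dimension trap.** -/
theorem result (H : Set (ℝ × ℝ)) (hHX : H ⊆ X) (hconv : Convex ℝ H)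
    (htrap : ∀ P ∈ X, ∀ q : ℕ, 1 ≤ q → B^[q] P = P → P ≠ (0, 0) → P ≠ (1, 1) →
      ∃ n : ℕ, B^[n] P ∈ closure H) :
    dimH (codedSurvivors H) = 0 ∧ dimH (orbitSurvivors H) = 0 := by
  have h1 : dimH (codedSurvivors H) = 0 := dim_Jc hconv hHX (trap_of_geom htrap)
  refine ⟨h1, le_antisymm ?_ (zero_le)⟩
  rw [← h1]
  apply dimH_mono
  rintro P ⟨o, ho, hX, hB, hH⟩
  obtain ⟨u, hu⟩ := orbit_coded hX hB
  exact ⟨u, (hu 0).trans ho, fun k => by
    show (px u k, py u k) ∉ H
    rw [hu k]; exact hH k⟩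

end Pool.Agent.Results.MP_922b34_an.ConvexCycleTraps
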